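import Pool.Agent.Helper16_XQ.StmtG
import Pool.Agent.Helper44_AEU.Gho
import Pool.Agent.Helper69_AEU.Tools
import Pool.Agent.Helper69_AEU.Lam
import Pool.Agent.Helper69_AEU.Per
import Pool.Agent.Helper72_AEU.ACT
import Pool.Agent.Helper72_AEU.F3
import Pool.Agent.Helper40_AEU.Ell

/-!
Squad XQ (MP_5b0138_an), Part G, module GHX: ghosts of arbitrary polygons.
-/

set_option autoImplicit false

namespace Pool.Agent.XQ.H11

open MeasureTheory Complex Filter Topology Pool.Agent.H62T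
open Pool.Agent.H16F (Sublin)
open Pool.Agent.AEU Pool.Agent.AEU.H44 Pool.Agent.XQ

/-- contact points -/
theorem adm_of_bodyX (vxx : VxxStatement)
    (P : Finset HP) (hP : Pg P) (σ : Fin 3 → HP) (h : ℂ → ℝ) (hs : Sublin h)
    (hfit : Fits P h) (hσ : ∀ i, h (σ i).1 = (σ i).2) :
    ∃ x ∈ Adm P σ, ∀ w, hf x w ≤ h w := by
  choose x hx using fun i => (H69.sup h hs).2.2.2 (σ i).1
  refine ⟨x, ⟨fun i => (vxx P hP).2.2.2.2.2.2.1 h hfit (x i) (hx i).1, fun i => ?_⟩, ?_⟩
  · rw [(hx i).2, hσ i]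
  · exact (H69.hul 2 x).2.2.2.1 h fun i => (hx i).1

/-- in an acute triple of unit normals no two are parallel -/
theorem np_of_acute {S : Finset HP} (hu : ∀ s ∈ S, ‖s.1‖ = 1) (h3 : 3 ≤ S.card)
    (hA : Acute S) : Np S := by
  intro s hs t ht hst h0
  obtain ⟨r, hr, hrs, hrt⟩ : ∃ r ∈ S, r ≠ s ∧ r ≠ t := by
    by_contra hcon
    push Not at hcon
    have hsub : S ⊆ {s, t} := by
      intro r hr
      simp only [Finset.mem_insert, Finset.mem_singleton]
      by_cases h1 : r = s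
      · exact Or.inl h1
      · exact Or.inr (hcon r hr h1)
    have := Finset.card_le_card hsub
    have h2 := Finset.card_le_two (a := s) (b := t)
    omega
  have h1 := hA s hs t ht hst
  have h2 := hA s hs r hr hrs.symm
  have h3 := hA t ht r hr hrt.symm
  have hs1 := hu s hs
  have ht1 := hu t ht
  have e1 : s.1.re ^ 2 + s.1.im ^ 2 = 1 := by
    have := Complex.sq_norm s.1
    rw [hs1, Complex.normSq_apply] at this
    linarith only [this]
  have e2 : t.1.re ^ 2 + t.1.im ^ 2 = 1 := by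
    have := Complex.sq_norm t.1
    rw [ht1, Complex.normSq_apply] at this
    linarith only [this]
  unfold ip at h1 h2 h3
  unfold dt at h0
  -- t = -s
  have k1 : s.1.re * t.1.re + s.1.im * t.1.im = -1 := by
    have : (s.1.re * t.1.re + s.1.im * t.1.im) ^ 2 = 1 := by nlinarith only [e1, e2, h0]
    nlinarith only [this, h1]
  have k2 : (s.1.re + t.1.re) ^ 2 + (s.1.im + t.1.im) ^ 2 = 0 := by linarith only [e1, e2, k1]
  have k3 : s.1.re + t.1.re = 0 := by nlinarith only [e1, e2, k1, sq_nonneg (s.1.re + t.1.re), sq_nonneg (s.1.im + t.1.im)]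
  have k4 : s.1.im + t.1.im = 0 := by nlinarith only [e1, e2, k1, sq_nonneg (s.1.re + t.1.re), sq_nonneg (s.1.im + t.1.im)]
  have k5 : t.1.re = - s.1.re := by linarith
  have k6 : t.1.im = - s.1.im := by linarith
  rw [k5, k6] at h3
  linarith only [h2, h3]

/-- module GHX -/
theorem ghx (vxx : VxxStatement) : GhxStatement := by
  intro P hP S hG
  obtain ⟨hSP, hS3, h, hsub, hfit, htouch, hlt⟩ := hG
  have hSP0 := hSP
  have hS30 := hS3
  obtain ⟨s, t, r, hst, hsr, htr, rfl⟩ := Finset.card_eq_three.mp hS3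
  set σ : Fin 3 → HP := ![s, t, r] with hσ
  have hver' := vxx P hP
  have hcomp : IsCompact (Cl P) := hver'.2.2.2.2.2.2.2.2.1
  have hσP : ∀ i, σ i ∈ P := by
    intro i
    apply hSP
    fin_cases i <;> simp [σ]
  have htri : ∀ h' : ℂ → ℝ, ({s, t, r} : Finset HP) ⊆ touch P h' → ∀ i, h' (σ i).1 = (σ i).2 := by
    intro h' hh i
    have : σ i ∈ touch P h' := by
      apply hh
      fin_cases i <;> simp [σ]
    exact (Finset.mem_filter.mp this).2
  obtain ⟨x', hx', -⟩ := adm_of_bodyX vxx P hP σ h hsub hfit (htri h htouch)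
  obtain ⟨x, hx, hmin⟩ := (adm_compact P hcomp σ).exists_isMinOn ⟨x', hx'⟩
    (H69.cnt 2).2.continuousOn
  have hmin' : ∀ y ∈ Adm P σ, lam (hf x) ≤ lam (hf y) := fun y hy => hmin hy
  have hall : ∀ h', Sublin h' → Fits P h' → ({s, t, r} : Finset HP) ⊆ touch P h' →
      lam (hf x) ≤ lam h' := by
    intro h' hs' hf' ht'
    obtain ⟨y, hy, hle⟩ := adm_of_bodyX vxx P hP σ h' hs' hf' (htri h' ht')
    exact (hmin' y hy).trans (H69.lamS.2.1 _ _ (H69.hul 2 y).1 hs' hle).1
  have hm := (H69.mixS P).2.2 2 x hx.1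
  have htx : ({s, t, r} : Finset HP) ⊆ touch P (hf x) := by
    intro a ha
    rw [hm.2]
    refine ⟨hSP ha, ?_⟩
    simp only [Finset.mem_insert, Finset.mem_singleton] at ha
    rcases ha with rfl | rfl | rfl
    · exact ⟨0, hx.2 0⟩
    · exact ⟨1, hx.2 1⟩
    · exact ⟨2, hx.2 2⟩
  have hnsp : ¬ Special P (hf x) := by
    intro hsp
    exact absurd (hlt _ hsp htx) (not_lt.mpr (hall h hsub hfit htouch))
  have h3 : 3 ≤ (touch P (hf x)).card := by
    have := Finset.card_le_card htx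
    omega
  have hn : ¬ ((∃ v, Vx P v ∧ In v (hf x)) ∨ 4 ≤ (touch P (hf x)).card) := fun hh =>
    hnsp ⟨(H69.hul 2 x).1, hm.1, h3, hh⟩
  rw [not_or] at hn
  have htS : touch P (hf x) = {s, t, r} := by
    symm
    apply Finset.eq_of_subset_of_card_le htx
    rw [hS3]
    omega
  have hnv : ∀ i, ¬ Vx P (x i) := fun i hv => hn.1 ⟨x i, hv, (H69.hul 2 x).2.1 i⟩
  have hin : ∀ i, ∀ a ∈ P, a ≠ σ i → ip a.1 (x i) < a.2 := fun i =>
    hver'.2.2.2.2.2.1 (x i) (hx.1 i) (σ i) (hσP i) (hx.2 i) (hnv i)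
  have hpm : ∀ y : Fin 3 → ℂ, lam (hf y) = pm3 y := by
    intro y
    rw [← cons3 y, H69.per.2.1]
    rfl
  have hsl : ∀ i, ∃ ε > 0, ∀ a : ℝ, |a| < ε →
      pm3 x ≤ pm3 (Function.update x i (x i + a * (I * (σ i).1))) := by
    intro i
    obtain ⟨ε, hε, hh⟩ := slide P (σ i) (x i) (hx.2 i) (hin i)
    refine ⟨ε, hε, fun a ha => ?_⟩
    rw [← hpm, ← hpm]
    apply hmin'
    refine ⟨fun j => ?_, fun j => ?_⟩
    · by_cases hj : j = i
      · subst hj
        simpa using (hh a ha).1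
      · rw [Function.update_of_ne hj]
        exact hx.1 j
    · by_cases hj : j = i
      · subst hj
        simpa using (hh a ha).2
      · rw [Function.update_of_ne hj]
        exact hx.2 j
  obtain ⟨ε0, hε0, hs0⟩ := hsl 0
  obtain ⟨ε1, hε1, hs1⟩ := hsl 1
  obtain ⟨ε2, hε2, hs2⟩ := hsl 2
  have hu : ∀ i, ‖(σ i).1‖ = 1 := fun i => hP.unit _ (hσP i)
  have hne : ∀ i j, i ≠ j → σ i ≠ σ j := ne3 hst hsr htr
  have hlt' : ∀ i j, i ≠ j → ip (σ i).1 (x j) < (σ i).2 := fun i j hij =>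
    hin j (σ i) (hσP i) (hne i j hij)
  have key := H72.f3 s t r (x 0) (x 1) (x 2) (hu 0) (hu 1) (hu 2) (hx.2 0) (hx.2 1) (hx.2 2)
    (hlt' 0 1 (by decide)) (hlt' 0 2 (by decide)) (hlt' 1 0 (by decide)) (hlt' 1 2 (by decide))
    (hlt' 2 0 (by decide)) (hlt' 2 1 (by decide))
    ⟨min ε0 (min ε1 ε2), lt_min hε0 (lt_min hε1 hε2), fun a ha => by
      have ha0 : |a| < ε0 := lt_of_lt_of_le ha (min_le_left _ _)
      have ha1 : |a| < ε1 := lt_of_lt_of_le ha ((min_le_right _ _).trans (min_le_left _ _))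
      have ha2 : |a| < ε2 := lt_of_lt_of_le ha ((min_le_right _ _).trans (min_le_right _ _))
      have e0 := hs0 a ha0
      have e1 := hs1 a ha1
      have e2 := hs2 a ha2
      simp only [pm3, Function.update, Fin.isValue, σ] at e0 e1 e2
      simp at e0 e1 e2
      have c1 := norm_sub_rev (x 0) (x 1)
      have c2 := norm_sub_rev (x 1) (x 2)
      have c3 := norm_sub_rev (x 2) (x 0)
      refine ⟨?_, ?_, ?_⟩
      · rw [norm_sub_rev (x 1), norm_sub_rev (x 0) (x 2), norm_sub_rev (x 1),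
          norm_sub_rev (x 0 + _) (x 2)]
        linarith
      · linarith
      · rw [norm_sub_rev (x 0) (x 2), norm_sub_rev (x 2) (x 1), norm_sub_rev (x 0),
          norm_sub_rev _ (x 1)]
        linarith⟩
  have hell3 : ell {s, t, r} = ell3 s t r := (H40.ell H72.act).1 s t r hst hsr htr
  have hlamx : lam (hf x) = ell {s, t, r} := by
    rw [hell3, ← key.2.2.2, hpm]
    rfl
  have hacute : Acute ({s, t, r} : Finset HP) := by
    intro a ha b hb hab
    simp only [Finset.mem_insert, Finset.mem_singleton] at ha hb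
    rcases ha with rfl | rfl | rfl <;> rcases hb with rfl | rfl | rfl
    · exact absurd rfl hab
    · exact key.1
    · rw [ip_comm']; exact key.2.2.1
    · rw [ip_comm']; exact key.1
    · exact absurd rfl hab
    · exact key.2.1
    · exact key.2.2.1
    · rw [ip_comm']; exact key.2.1
    · exact absurd rfl hab
  have hpos : 0 < ell {s, t, r} := by
    rw [hell3, ← key.2.2.2]
    have h01 : x 0 ≠ x 1 := by
      intro hh
      have e1 := hx.2 0
      have e2 := hlt' 0 1 (by decide)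
      rw [hh] at e1
      linarith
    have := norm_pos_iff.mpr (sub_ne_zero.mpr h01)
    have := norm_nonneg (x 1 - x 2)
    have := norm_nonneg (x 2 - x 0)
    linarith
  refine ⟨hacute, np_of_acute (fun a ha => hP.unit a (hSP0 ha)) (by omega) hacute, hpos,
    hf x, (H69.hul 2 x).1, hm.1, htS, hlamx, ?_⟩
  intro h' hs' hf' ht'
  rw [← hlamx]
  exact hall h' hs' hf' ht'

end Pool.Agent.XQ.H11
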