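import Pool.Agent.Helper16_XQ.StmtG
import Pool.Agent.Helper20_AEU.Gap
import Pool.Agent.Helper69_AEU.Tools
import Pool.Agent.Helper69_AEU.Lam
import Pool.Agent.Helper69_AEU.Per
import Pool.Agent.Helper72_AEU.ACT

/-!
Squad XQ (MP_5b0138_an), Part G, module RLX, compactness: a body of bounded perimeter touching two
lines which are not parallel stays in a bounded region; the polygon may be unbounded.
-/

set_option autoImplicit false

namespace Pool.Agent.XQ.H11

open MeasureTheory Complex Filter Topology Pool.Agent.H62T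
open Pool.Agent.H16F (Sublin)
open Pool.Agent.AEU Pool.Agent.XQ

theorem in_cl {X : Finset HP} (h : ℂ → ℝ) (hF : Fits X h) (x : ℂ) (hx : In x h) : x ∈ Cl X :=
  fun s hs => (hx s.1).trans (hF s hs)

theorem dt_mul (u v w : ℂ) : ((dt u v : ℝ) : ℂ) * w
    = I * (((ip v w : ℝ) : ℂ) * u - ((ip u w : ℝ) : ℂ) * v) := by
  apply Complex.ext <;> simp [dt, ip] <;> ring

theorem dt_norm (u v w : ℂ) (hu : ‖u‖ = 1) (hv : ‖v‖ = 1) :
    |dt u v| * ‖w‖ ≤ |ip v w| + |ip u w| := by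
  have h1 : ‖((dt u v : ℝ) : ℂ) * w‖ = |dt u v| * ‖w‖ := by
    rw [norm_mul, Complex.norm_real, Real.norm_eq_abs]
  rw [← h1, dt_mul, norm_mul, Complex.norm_I, one_mul]
  refine (norm_sub_le _ _).trans (le_of_eq ?_)
  rw [norm_mul, norm_mul, hu, hv, Complex.norm_real, Complex.norm_real, Real.norm_eq_abs,
    Real.norm_eq_abs, mul_one, mul_one]

/-- two points of a body are not far from each other -/
theorem dist_le_lam {h : ℂ → ℝ} (hs : Sublin h) {a b : ℂ} (ha : In a h) (hb : In b h) :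
    ‖a - b‖ ≤ lam h / 2 := by
  have h1 : lam (hf ![a, b]) = 2 * ‖a - b‖ := H69.per.1 a b
  have h2 : lam (hf ![a, b]) ≤ lam h := by
    refine (H69.lamS.2.1 _ _ (H69.hul 1 ![a, b]).1 hs ((H69.hul 1 ![a, b]).2.2.2.1 h ?_)).1
    intro i
    fin_cases i
    · exact ha
    · exact hb
  linarith

theorem isClosed_cl (X : Finset HP) : IsClosed (Cl X) := by
  have : Cl X = ⋂ s ∈ X, {x : ℂ | ip s.1 x ≤ s.2} := by
    ext x
    simp [Cl]
  rw [this]
  refine isClosed_biInter fun s _ => isClosed_le ?_ continuous_const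
  unfold ip
  fun_prop

theorem compact_touch (X S : Finset HP) (hSX : S ⊆ X) (s t : HP) (hs : s ∈ S) (ht : t ∈ S)
    (hs1 : ‖s.1‖ = 1) (ht1 : ‖t.1‖ = 1) (hst : dt s.1 t.1 ≠ 0) (m : ℕ) (R : ℝ) :
    IsCompact ({x : Fin (m + 1) → ℂ | ∀ i, x i ∈ Cl X} ∩
      ({x : Fin (m + 1) → ℂ | S ⊆ touch X (hf x)} ∩
        {x : Fin (m + 1) → ℂ | lam (hf x) ≤ R})) := by
  have hcl : IsClosed ({x : Fin (m + 1) → ℂ | ∀ i, x i ∈ Cl X} ∩
      ({x : Fin (m + 1) → ℂ | S ⊆ touch X (hf x)} ∩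
        {x : Fin (m + 1) → ℂ | lam (hf x) ≤ R})) := by
    refine IsClosed.inter ?_ ((H20.isClosed_touch H69.cnt X S hSX m).inter
      (isClosed_le (H69.cnt m).2 continuous_const))
    have h2 : {x : Fin (m + 1) → ℂ | ∀ i, x i ∈ Cl X} = Set.pi Set.univ fun _ => Cl X := by
      ext x
      simp [Set.mem_pi]
    rw [h2]
    exact isClosed_set_pi fun i _ => isClosed_cl X
  refine Metric.isCompact_of_isClosed_isBounded hcl ?_
  rw [isBounded_iff_forall_norm_le]
  have hpos : 0 < |dt s.1 t.1| := abs_pos.2 hst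
  refine ⟨((|t.2| + R / 2) + |s.2|) / |dt s.1 t.1| + R / 2, ?_⟩
  intro x hx
  obtain ⟨-, hxS, hxR⟩ := hx
  have hsub := (H69.hul m x).1
  have hR : lam (hf x) ≤ R := hxR
  have hR0 : 0 ≤ R := (H69.lamS.2.2.1 _ hsub).trans hR
  have e1 : hf x s.1 = s.2 := (H20.mem_touch.1 (hxS hs)).2
  have e2 : hf x t.1 = t.2 := (H20.mem_touch.1 (hxS ht)).2
  obtain ⟨i, hi⟩ := (H69.hul m x).2.2.1 s.1
  obtain ⟨j, hj⟩ := (H69.hul m x).2.2.1 t.1
  have hin := (H69.hul m x).2.1
  have hd : ∀ a b, ‖x a - x b‖ ≤ R / 2 := fun a b =>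
    (dist_le_lam hsub (hin a) (hin b)).trans (by linarith)
  have h3 : |ip t.1 (x i)| ≤ |t.2| + R / 2 := by
    have e3 : ip t.1 (x i) = t.2 + ip t.1 (x i - x j) := by
      have : ip t.1 (x i - x j) = ip t.1 (x i) - ip t.1 (x j) := by
        simp [ip]
        ring
      rw [this, ← hj, e2]
      ring
    rw [e3]
    refine (abs_add_le _ _).trans ?_
    have := H69.abs_ip_le t.1 (x i - x j)
    rw [ht1, one_mul] at this
    linarith [hd i j]
  have h4 : |ip s.1 (x i)| = |s.2| := by rw [← hi, e1]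
  have h5 := dt_norm s.1 t.1 (x i) hs1 ht1
  have h6 : ‖x i‖ ≤ ((|t.2| + R / 2) + |s.2|) / |dt s.1 t.1| := by
    rw [le_div_iff₀ hpos]
    linarith
  have hnn : 0 ≤ ((|t.2| + R / 2) + |s.2|) / |dt s.1 t.1| + R / 2 := by positivity
  rw [pi_norm_le_iff_of_nonneg hnn]
  intro k
  have h7 : x k = x i + (x k - x i) := by ring
  rw [h7]
  refine (norm_add_le _ _).trans ?_
  linarith [hd k i]

/-- if all bodies touching `S` up to the level `L` are matched by `g`, then also a little above -/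
theorem cpt {X Y S : Finset HP} (g : Iso2) (L : ℝ) (hSX : S ⊆ X) (hS3 : S.card = 3)
    (s t : HP) (hs : s ∈ S) (ht : t ∈ S)
    (hs1 : ‖s.1‖ = 1) (ht1 : ‖t.1‖ = 1) (hst : dt s.1 t.1 ≠ 0)
    (H : ∀ h, Sublin h → Fits X h → S ⊆ touch X h → lam h ≤ L → Mat X Y g h) :
    ∃ δ > 0, ∀ h, Sublin h → Fits X h → S ⊆ touch X h → lam h < L + δ → Mat X Y g h := by
  have hK₀ := compact_touch X S hSX s t hs ht hs1 ht1 hst 3 (L + 1)
  have hK := H20.compact_not hK₀ (fun x hx => ((H69.mixS X).2.2 3 x hx.1).1)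
    (fun h => Mat X Y g h) fun x hx => H20.matched_nhds (H69.opn H72.act) H69.cnt hx
  obtain ⟨δ, hδ, hgap⟩ := H20.exists_gap H69.cnt hK L fun x hx => by
    by_contra hlt
    exact hx.2 (H (hf x) (H69.hul 3 x).1 ((H69.mixS X).2.2 3 x hx.1.1).1 hx.1.2.1
      (not_lt.1 hlt))
  refine ⟨min δ 1, lt_min hδ one_pos, fun h hsb hF hSt hlt => ?_⟩
  by_contra hn
  obtain ⟨y, hy, hbad⟩ := H20.bad_point H69.sup H72.act hsb hF hn
  obtain ⟨x, hx1, hx2, _, hx4, hx5, hx6, hx7⟩ := H20.hull_contacts H69.sup H69.hul H69.lamS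
    in_cl hsb hF S hSt hy 3 (by omega)
  have h1 : lam h < L + δ := lt_of_lt_of_le hlt (by gcongr; exact min_le_left _ _)
  have h2 : lam h < L + 1 := lt_of_lt_of_le hlt (by gcongr; exact min_le_right _ _)
  have := hgap x ⟨⟨hx1, hx5, hx7.trans h2.le⟩, hbad (hf x) hx2 hx6⟩
  linarith

/-! ### Relaxed polygons -/

theorem mem_er {X : Finset HP} {T : Finset (Finset HP)} {c : Finset HP → HP → ℝ}
    {S : Finset HP} {t : HP} :
    t ∈ er X T c S ↔ t ∈ X ∧ t ∉ S ∧ insert t S ∈ T ∧ 0 < c (insert t S) t := by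
  simp [er]

theorem mem_rlx {X : Finset HP} {T : Finset (Finset HP)} {c : Finset HP → HP → ℝ}
    {S : Finset HP} {t : HP} :
    t ∈ rlx X T c S ↔ t ∈ X ∧ ¬ (t ∉ S ∧ insert t S ∈ T ∧ 0 < c (insert t S) t) := by
  simp only [rlx, Finset.mem_sdiff, mem_er]
  tauto

theorem rlx_sub {X : Finset HP} {T : Finset (Finset HP)} {c : Finset HP → HP → ℝ}
    {S : Finset HP} : rlx X T c S ⊆ X := fun _ h => (mem_rlx.1 h).1

theorem sub_rlx {X : Finset HP} {T : Finset (Finset HP)} {c : Finset HP → HP → ℝ}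
    {S : Finset HP} (hS : S ⊆ X) : S ⊆ rlx X T c S := fun _ h =>
  mem_rlx.2 ⟨hS h, fun h' => h'.1 h⟩

theorem er_uniq {X S : Finset HP} {K h : ℂ → ℝ} {L : ℝ} {c : HP → ℝ} {t : HP}
    (hT : TornC X (insert t S) K L c) (hs : Sublin h) (hS : ∀ s ∈ S, h s.1 = s.2)
    (ht : 0 ≤ c t * (h t.1 - t.2)) (hl : lam h ≤ L) : h = K := by
  refine hT.uniq h hs (fun s hs' => ?_) hl
  rcases Finset.mem_insert.1 hs' with rfl | hs''
  · exact ht
  · rw [hS s hs'']
    simp

theorem fits_of_rlx {X S : Finset HP} {T : Finset (Finset HP)} {c : Finset HP → HP → ℝ}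
    {K : Finset HP → ℂ → ℝ} {L : ℝ} {h : ℂ → ℝ}
    (hT : ∀ F ∈ T, TornC X F (K F) L (c F)) (hs : Sublin h) (hF : Fits (rlx X T c S) h)
    (hS : ∀ s ∈ S, h s.1 = s.2) (hl : lam h ≤ L) : Fits X h := by
  intro t ht
  by_contra hlt
  have hlt' : t.2 < h t.1 := not_le.1 hlt
  have h0 : t ∉ rlx X T c S := fun h1 => hlt (hF t h1)
  rw [mem_rlx] at h0
  have h1 : t ∉ S ∧ insert t S ∈ T ∧ 0 < c (insert t S) t := by
    by_contra h2
    exact h0 ⟨ht, h2⟩
  have h3 := er_uniq (hT _ h1.2.1) hs hS (mul_nonneg h1.2.2.le (by linarith)) hl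
  have h5 := (hT _ h1.2.1).fits t ht
  rw [← h3] at h5
  linarith

/-- a touched side which is placed is not erased -/
theorem mem_rlx_of {X Y S : Finset HP} {T : Finset (Finset HP)} {c : Finset HP → HP → ℝ}
    {K : Finset HP → ℂ → ℝ} {L : ℝ} {h : ℂ → ℝ} (g : Iso2)
    (hT : ∀ F ∈ T, TornC X F (K F) L (c F) ∧ Unl X Y (K F)) (hs : Sublin h)
    (hS : ∀ s ∈ S, h s.1 = s.2) (hl : lam h ≤ L) (hFY : Fits Y (mb g h))
    (hmem : ∀ s ∈ S, mv g s ∈ Y) {t : HP} (ht : t ∈ X) (hte : h t.1 = t.2)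
    (hgt : mv g t ∈ Y) : t ∈ rlx X T c S := by
  rw [mem_rlx]
  refine ⟨ht, ?_⟩
  rintro ⟨hn, hTm, hc⟩
  have hTc := hT _ hTm
  have hk : h = K (insert t S) := er_uniq hTc.1 hs hS (by rw [hte]; simp) hl
  refine hTc.2.2 ⟨g, ?_, ?_⟩
  · rw [← hk]
    exact hFY
  · intro s' hs'
    rw [hTc.1.tch] at hs'
    rcases Finset.mem_insert.1 hs' with rfl | hs''
    · exact hgt
    · exact hmem s' hs''

theorem ip_dt_one {u v : ℂ} (hu : ‖u‖ = 1) (hv : ‖v‖ = 1) : ip u v ^ 2 + dt u v ^ 2 = 1 := by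
  have e1 : u.re ^ 2 + u.im ^ 2 = 1 := by
    have := Complex.sq_norm u
    rw [hu, Complex.normSq_apply] at this
    nlinarith
  have e2 : v.re ^ 2 + v.im ^ 2 = 1 := by
    have := Complex.sq_norm v
    rw [hv, Complex.normSq_apply] at this
    nlinarith
  have e3 : ip u v ^ 2 + dt u v ^ 2 = (u.re ^ 2 + u.im ^ 2) * (v.re ^ 2 + v.im ^ 2) := by
    unfold ip dt
    ring
  rw [e3, e1, e2]
  norm_num

theorem dt_ne_of_lt {u v : ℂ} (hu : ‖u‖ = 1) (hv : ‖v‖ = 1) (h : |ip u v| < 1) :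
    dt u v ≠ 0 := by
  intro h0
  have h1 := ip_dt_one hu hv
  rw [h0] at h1
  have h2 : |ip u v| ^ 2 = 1 := by
    rw [sq_abs]
    linarith
  have h3 : |ip u v| = 1 := by
    have := abs_nonneg (ip u v)
    nlinarith
  linarith

theorem np_image {S : Finset HP} (g : Iso2) (h : Np S) : Np (S.image (mv g)) := by
  intro s hs t ht hst
  obtain ⟨s', hs', rfl⟩ := Finset.mem_image.1 hs
  obtain ⟨t', ht', rfl⟩ := Finset.mem_image.1 ht
  have h1 := h s' hs' t' ht' (fun e => hst (by rw [e]))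
  have h2 := (H72.act.2.2.2.2.2.2.2.2.1 : ∀ (g : Iso2) (s t : HP),
    |dt (mv g s).1 (mv g t).1| = |dt s.1 t.1|) g s' t'
  intro h0
  rw [h0, abs_zero] at h2
  exact h1 (abs_eq_zero.1 h2.symm)

theorem mb_on {S : Finset HP} {h : ℂ → ℝ} (g : Iso2) (hS : ∀ s ∈ S, h s.1 = s.2) :
    ∀ s ∈ S.image (mv g), mb g h s.1 = s.2 := by
  intro s hs
  obtain ⟨s', hs', rfl⟩ := Finset.mem_image.1 hs
  have := H69.mb_mv H72.act g h s'
  rw [hS s' hs'] at this
  linarith

theorem mb_at {h : ℂ → ℝ} (g : Iso2) {s : HP} (hs : h s.1 = s.2) :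
    mb g h (mv g s).1 = (mv g s).2 := by
  have := H69.mb_mv H72.act g h s
  rw [hs] at this
  linarith

theorem mb_at' {h : ℂ → ℝ} (g : Iso2) {s : HP} (hs : mb g h s.1 = s.2) :
    h (mv g⁻¹ s).1 = (mv g⁻¹ s).2 := by
  have := H69.mb_mv H72.act g h (mv g⁻¹ s)
  rw [H69.mv_inv H72.act, hs] at this
  linarith

theorem mem_inv_image {S : Finset HP} (g : Iso2) {s : HP} (hs : s ∈ S.image (mv g)) :
    mv g⁻¹ s ∈ S := by
  obtain ⟨s', hs', rfl⟩ := Finset.mem_image.1 hs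
  rw [H69.mv_inv' H72.act]
  exact hs'

theorem inv_image (S : Finset HP) (g : Iso2) : (S.image (mv g)).image (mv g⁻¹) = S := by
  ext s
  constructor
  · intro hs
    obtain ⟨s', hs', rfl⟩ := Finset.mem_image.1 hs
    exact mem_inv_image g hs'
  · intro hs
    exact Finset.mem_image.2 ⟨mv g s, Finset.mem_image_of_mem _ hs, H69.mv_inv' H72.act g s⟩

theorem mb_inv (g : Iso2) (h : ℂ → ℝ) : mb g (mb g⁻¹ h) = h := by
  have := H69.mb_inv' H72.act g⁻¹ h
  rwa [inv_inv] at this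

/-- from the level `L` to a little above -/
theorem fin_step {X Y S : Finset HP} {T T' : Finset (Finset HP)} {c c' : Finset HP → HP → ℝ}
    {L : ℝ} {g : Iso2} (uX : ∀ s ∈ X, ‖s.1‖ = 1) (uY : ∀ s ∈ Y, ‖s.1‖ = 1) (hSX : S ⊆ X)
    (hSY : S.image (mv g) ⊆ Y) (hS3 : S.card = 3) (hnp : Np S)
    (h1 : ∀ h, Sublin h → Fits (rlx X T c S) h → (∀ s ∈ S, h s.1 = s.2) → lam h ≤ L →
      Mat (rlx X T c S) (rlx Y T' c' (S.image (mv g))) g h)
    (h2 : ∀ h, Sublin h → Fits (rlx Y T' c' (S.image (mv g))) h →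
      (∀ s ∈ S.image (mv g), h s.1 = s.2) → lam h ≤ L →
      Mat (rlx Y T' c' (S.image (mv g))) (rlx X T c S) g⁻¹ h) :
    ∃ δ > 0, (∀ h, Sublin h → Fits (rlx X T c S) h → S ⊆ touch X h → lam h < L + δ →
      Mat (rlx X T c S) (rlx Y T' c' (S.image (mv g))) g h) ∧
    ∀ h, Sublin h → Fits (rlx Y T' c' (S.image (mv g))) h → S.image (mv g) ⊆ touch Y h →
      lam h < L + δ → Mat (rlx Y T' c' (S.image (mv g))) (rlx X T c S) g⁻¹ h := by
  have hcg : (S.image (mv g)).card = 3 := by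
    rw [Finset.card_image_of_injective _ (H69.mv_inj H72.act g), hS3]
  obtain ⟨s, t, r, hst, hsr, htr, hSe⟩ := Finset.card_eq_three.mp hS3
  have hs : s ∈ S := by simp [hSe]
  have ht : t ∈ S := by simp [hSe]
  have hgs : mv g s ∈ S.image (mv g) := Finset.mem_image_of_mem _ hs
  have hgt : mv g t ∈ S.image (mv g) := Finset.mem_image_of_mem _ ht
  have hgst : mv g s ≠ mv g t := fun e => hst (H69.mv_inj H72.act g e)
  have cv : ∀ {Z U V : Finset HP} {h : ℂ → ℝ}, U ⊆ V → U ⊆ touch Z h → U ⊆ touch V h := by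
    intro Z U V h hUV hU u hu
    exact H20.mem_touch.2 ⟨hUV hu, (H20.mem_touch.1 (hU hu)).2⟩
  obtain ⟨δ1, hδ1, H1⟩ := cpt g L (sub_rlx hSX) hS3 s t hs ht (uX s (hSX hs)) (uX t (hSX ht))
    (hnp s hs t ht hst) (fun h a b d e => h1 h a b (fun s hs => (H20.mem_touch.1 (d hs)).2) e)
  obtain ⟨δ2, hδ2, H2⟩ := cpt g⁻¹ L (sub_rlx hSY) hcg (mv g s) (mv g t) hgs hgt
    (uY _ (hSY hgs)) (uY _ (hSY hgt)) (np_image g hnp _ hgs _ hgt hgst)
    (fun h a b d e => h2 h a b (fun s hs => (H20.mem_touch.1 (d hs)).2) e)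
  refine ⟨min δ1 δ2, lt_min hδ1 hδ2, fun h a b d e => ?_, fun h a b d e => ?_⟩
  · exact H1 h a b (cv (sub_rlx hSX) d) (lt_of_lt_of_le e (by gcongr; exact min_le_left _ _))
  · exact H2 h a b (cv (sub_rlx hSY) d) (lt_of_lt_of_le e (by gcongr; exact min_le_right _ _))

/-- a matched body can be moved a little towards another one -/
theorem opn_mix {X Y : Finset HP} {g : Iso2} {h0 h' : ℂ → ℝ} (M : Mat X Y g h0)
    (hs0 : Sublin h0) (hs' : Sublin h') (hF' : Fits X h') :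
    ∃ τ : ℝ, 0 < τ ∧ τ < 1 ∧ Mat X Y g (mix τ h0 h') := by
  obtain ⟨ε, hε, hop⟩ := H69.opn H72.act X Y g h0 M
  have hev : ∀ w : ℂ, ∀ᶠ τ : ℝ in 𝓝[>] 0, |mix τ h0 h' w - h0 w| < ε := by
    intro w
    have hc : Continuous fun τ : ℝ => mix τ h0 h' w - h0 w := by
      unfold mix
      fun_prop
    have h1 : Tendsto (fun τ : ℝ => |mix τ h0 h' w - h0 w|) (𝓝[>] 0) (𝓝 0) := by
      have := (hc.abs.tendsto 0).mono_left (nhdsWithin_le_nhds (s := Set.Ioi (0 : ℝ)))
      simpa [mix] using this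
    exact h1.eventually_lt_const hε
  have e1 : ∀ᶠ τ : ℝ in 𝓝[>] 0, ∀ s ∈ X, |mix τ h0 h' s.1 - h0 s.1| < ε := by
    rw [Filter.eventually_all_finset]
    intro s _
    exact hev s.1
  have e2 : ∀ᶠ τ : ℝ in 𝓝[>] 0, ∀ s ∈ Y,
      |mb g (mix τ h0 h') s.1 - mb g h0 s.1| < ε := by
    rw [Filter.eventually_all_finset]
    intro s _
    filter_upwards [hev (g.linearIsometryEquiv.symm s.1)] with τ hτ
    simpa [mb] using hτ
  have e3 : ∀ᶠ τ : ℝ in 𝓝[>] 0, τ < 1 :=
    (eventually_lt_nhds one_pos).filter_mono nhdsWithin_le_nhds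
  have e4 : ∀ᶠ τ : ℝ in 𝓝[>] 0, 0 < τ := self_mem_nhdsWithin
  obtain ⟨τ, ⟨⟨a, b⟩, d⟩, e⟩ := (((e1.and e2).and e3).and e4).exists
  have m3 := ((H69.mixS X).1 h0 h' hs0 hs' τ e.le d.le).2.2.2 M.fits hF'
  exact ⟨τ, e, d, hop _ m3.1 a b⟩

/-- module RLX -/
theorem rlxs (evr : EvrStatement) (unx : UnxStatement) (lxx : LxxStatement)
    (umx : UmxStatement) (t3x : T3xStatement) (uql : UqlStatement) (lmx : LmxStatement)
    (tbm : TbmStatement) : RlxStatement := by
  intro P Q L TP TQ cP cQ KP KQ C S hM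
  have act := H72.act
  obtain ⟨hSP, hS3, h0, g, hsp0, hmat0, hS0, hlen0⟩ := hM
  have pP := C.gx.gen.pg
  have gP := C.gx.gen.g1
  have hE : Env P Q L := evr P Q L pP gP C.pq C.hyp
  have hnp : Np S := fun s hs t ht hst =>
    dt_ne_of_lt (pP.unit s (hSP hs)) (pP.unit t (hSP ht)) (gP.lt1 s (hSP hs) t (hSP ht) hst)
  have hcg : (S.image (mv g)).card = 3 := by
    rw [Finset.card_image_of_injective _ (H69.mv_inj act g), hS3]
  have hmem : ∀ s ∈ S, mv g s ∈ Q := fun s hs => hmat0.mem s (hS0 hs)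
  have hSQ : S.image (mv g) ⊆ Q := by
    intro s hs
    obtain ⟨s', hs', rfl⟩ := Finset.mem_image.1 hs
    exact hmem s' hs'
  have hmat0' := H69.msy act P Q g h0 hmat0
  have hM' : MTr Q P L (S.image (mv g)) := by
    refine ⟨hSQ, hcg, mb g h0, g⁻¹, hmat0'.2.2 hsp0, hmat0'.1, ?_, ?_⟩
    · rw [hmat0'.2.1]
      exact Finset.image_subset_image hS0
    · rw [hmat0'.2.1, Finset.card_image_of_injective _ (H69.mv_inj act g),
        H69.lam_mb g hsp0.sub]
      exact hlen0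
  have hT1 : ∀ F ∈ TP, TornC P F (KP F) L (cP F) ∧ Unl P Q (KP F) := fun F hF =>
    ⟨(C.tP F hF).2.1, (C.tP F hF).2.2.1⟩
  have hT2 : ∀ F ∈ TQ, TornC Q F (KQ F) L (cQ F) ∧ Unl Q P (KQ F) := fun F hF =>
    ⟨(C.tQ F hF).2.1, (C.tQ F hF).2.2.1⟩
  have hsubm : ∀ (g : Iso2) (h : ℂ → ℝ), Sublin h → Sublin (mb g h) :=
    act.2.2.2.2.2.2.2.2.2.2.1
  have hl0 : lam h0 ≤ L := by
    rcases hlen0 with h | h
    · exact h.le
    · exact h.1.le
  refine ⟨g, hM', ?_⟩
  by_cases hLt : Lt P S L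
  · -- Case A
    -- a short body matched by g
    have hshort : ∃ h1, Sublin h1 ∧ Fits P h1 ∧ S ⊆ touch P h1 ∧ lam h1 < L ∧
        Mat P Q g h1 := by
      rcases hlen0 with hlt | ⟨heq, -⟩
      · exact ⟨h0, hsp0.sub, hsp0.fits, hS0, hlt, hmat0⟩
      · obtain ⟨h', hs', hF', hS', hlt'⟩ := hLt
        obtain ⟨τ, hτ0, hτ1, hM⟩ := opn_mix hmat0 hsp0.sub hs' hF'
        obtain ⟨m1, m2, -, m3⟩ := (H69.mixS P).1 h0 h' hsp0.sub hs' τ hτ0.le hτ1.le
        obtain ⟨m4, m5, -⟩ := m3 hsp0.fits hF'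
        refine ⟨mix τ h0 h', m1, m4, ?_, ?_, hM⟩
        · exact (Finset.subset_inter hS0 hS').trans m5
        · rw [m2, heq]
          nlinarith
    obtain ⟨h1, hs1, hF1, hS1, hl1, hmat1⟩ := hshort
    have hLX : ∀ h, Sublin h → Fits P h → (∀ s ∈ S, h s.1 = s.2) →
        (lam h < L → Mat P Q g h) ∧ (lam h ≤ L → Fits Q (mb g h)) := fun h hs hF hS =>
      lxx P Q L hE S g h1 h hS3 hS1 (fun s hs' => H20.mem_touch.2 ⟨hSP hs', hS s hs'⟩) hs1 hs
        hmat1 hF hl1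
    have hmat1' := H69.msy act P Q g h1 hmat1
    have hS1' : S.image (mv g) ⊆ touch Q (mb g h1) := by
      rw [hmat1'.2.1]
      exact Finset.image_subset_image hS1
    have hl1' : lam (mb g h1) < L := by
      rw [H69.lam_mb g hs1]
      exact hl1
    have hLtQ : Lt Q (S.image (mv g)) L :=
      ⟨mb g h1, hsubm g h1 hs1, hmat1.fits', hS1', hl1'⟩
    have key : ∀ h, Sublin h → Fits (rlx P TP cP S) h → (∀ s ∈ S, h s.1 = s.2) → lam h ≤ L →
        Mat (rlx P TP cP S) (rlx Q TQ cQ (S.image (mv g))) g h := by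
      intro h hs hF hS hl
      have hFP : Fits P h := fits_of_rlx (fun F hF => (hT1 F hF).1) hs hF hS hl
      have hSt : S ⊆ touch P h := fun s hs' => H20.mem_touch.2 ⟨hSP hs', hS s hs'⟩
      have hFQ : Fits Q (mb g h) := (hLX h hs hFP hS).2 hl
      have hSg := mb_on g hS
      have hStg : S.image (mv g) ⊆ touch Q (mb g h) := fun s hs' =>
        H20.mem_touch.2 ⟨hSQ hs', hSg s hs'⟩
      have hks := hsubm g h hs
      have hkl : lam (mb g h) = lam h := H69.lam_mb g hs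
      have a1 : ∀ s ∈ P, h s.1 = s.2 → s ∈ rlx P TP cP S → mv g s ∈ Q := by
        intro s hsP hse hsr
        by_cases hsS : s ∈ S
        · exact hmem s hsS
        rcases hl.lt_or_eq with hlt | heq
        · exact ((hLX h hs hFP hS).1 hlt).mem s (H20.mem_touch.2 ⟨hsP, hse⟩)
        have hins : insert s S ⊆ touch P h :=
          Finset.insert_subset (H20.mem_touch.2 ⟨hsP, hse⟩) hSt
        have hc4 : (insert s S).card = 4 := by
          rw [Finset.card_insert_of_notMem hsS, hS3]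
        have h4 : 4 ≤ (touch P h).card := by
          rw [← hc4]
          exact Finset.card_le_card hins
        have hspc : Special P h := ⟨hs, hFP, by omega, Or.inr h4⟩
        by_cases hU : Unl P Q h
        · exfalso
          obtain ⟨hT, hK⟩ := C.tP' h hU heq h4
          have hF4 := (hT1 _ hT).1.card
          have hins' : insert s S = touch P h :=
            Finset.eq_of_subset_of_card_le hins (by rw [hF4, hc4])
          rw [← hins'] at hT
          have hne := (hT1 _ hT).1.ne s (Finset.mem_insert_self _ _)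
          rcases lt_or_gt_of_ne hne with hneg | hpos
          · have h5 := (tbm P Q (insert s S) (KP _) L (cP _) pP (C.tP _ hT).1 (hT1 _ hT).1
              (hT1 _ hT).2 s (Finset.mem_insert_self _ _) hneg).1
            rw [Finset.erase_insert hsS] at h5
            exact h5 hLt
          · exact (mem_rlx.1 hsr).2 ⟨hsS, hT, hpos⟩
        · obtain ⟨g2, hg2⟩ := (lmx P Q L C.hyp C.gx C.pq).1 h hspc heq h4 hU
          have hgg : g2 = g := uql P Q L C.hyp C.gx C.pq g2 g S h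
            ⟨hS3, hs, hFP, hg2.fits', hSt, fun s hs => hg2.mem s (hSt hs)⟩
            ⟨hS3, hs, hFP, hFQ, hSt, hmem⟩ hl hLt
          rw [← hgg]
          exact hg2.mem s (H20.mem_touch.2 ⟨hsP, hse⟩)
      have hinvF : Fits P (mb g⁻¹ (mb g h)) := by
        rw [H69.mb_inv' act]
        exact hFP
      have a2 : ∀ s ∈ P, h s.1 = s.2 → mv g s ∈ Q →
          mv g s ∈ rlx Q TQ cQ (S.image (mv g)) := by
        intro s hsP hse hgQ
        refine mem_rlx_of (K := KQ) g⁻¹ hT2 hks hSg (hkl.le.trans hl) hinvF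
          (fun s' hs' => hSP (mem_inv_image g hs')) hgQ (mb_at g hse) ?_
        rw [H69.mv_inv' act]
        exact hsP
      have a3 : ∀ s' ∈ rlx Q TQ cQ (S.image (mv g)), mb g h s'.1 = s'.2 →
          mv g⁻¹ s' ∈ P := by
        intro s hsr hse
        have hsQ : s ∈ Q := rlx_sub hsr
        by_cases hsS : s ∈ S.image (mv g)
        · exact hSP (mem_inv_image g hsS)
        rcases hl.lt_or_eq with hlt | heq
        · exact ((hLX h hs hFP hS).1 hlt).mem' s (H20.mem_touch.2 ⟨hsQ, hse⟩)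
        have hins : insert s (S.image (mv g)) ⊆ touch Q (mb g h) :=
          Finset.insert_subset (H20.mem_touch.2 ⟨hsQ, hse⟩) hStg
        have hc4 : (insert s (S.image (mv g))).card = 4 := by
          rw [Finset.card_insert_of_notMem hsS, hcg]
        have h4 : 4 ≤ (touch Q (mb g h)).card := by
          rw [← hc4]
          exact Finset.card_le_card hins
        have hspc : Special Q (mb g h) := ⟨hks, hFQ, by omega, Or.inr h4⟩
        by_cases hU : Unl Q P (mb g h)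
        · exfalso
          obtain ⟨hT, hK⟩ := C.tQ' _ hU (hkl.trans heq) h4
          have hF4 := (hT2 _ hT).1.card
          have hins' : insert s (S.image (mv g)) = touch Q (mb g h) :=
            Finset.eq_of_subset_of_card_le hins (by rw [hF4, hc4])
          rw [← hins'] at hT
          have hne := (hT2 _ hT).1.ne s (Finset.mem_insert_self _ _)
          rcases lt_or_gt_of_ne hne with hneg | hpos
          · have h5 := (tbm Q P (insert s (S.image (mv g))) (KQ _) L (cQ _) C.pq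
              (C.tQ _ hT).1 (hT2 _ hT).1 (hT2 _ hT).2 s (Finset.mem_insert_self _ _) hneg).1
            rw [Finset.erase_insert hsS] at h5
            exact h5 hLtQ
          · exact (mem_rlx.1 hsr).2 ⟨hsS, hT, hpos⟩
        · obtain ⟨g2, hg2⟩ := (lmx P Q L C.hyp C.gx C.pq).2 (mb g h) hspc (hkl.trans heq) h4 hU
          have hgg : g2 = g⁻¹ := ((unx.2 Q P C.pq.unit pP gP g2 g⁻¹).2 (S.image (mv g)) hSQ
            hcg.ge (fun s hs => hg2.mem s (hStg hs))
            fun s hs => hSP (mem_inv_image g hs))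
          rw [← hgg]
          exact hg2.mem s (H20.mem_touch.2 ⟨hsQ, hse⟩)
      refine ⟨hF, fun s hs' => hFQ s (rlx_sub hs'), fun s hs' => ?_, fun s hs' => ?_⟩
      · obtain ⟨b1, b2⟩ := H20.mem_touch.1 hs'
        exact a2 s (rlx_sub b1) b2 (a1 s (rlx_sub b1) b2 b1)
      · obtain ⟨b1, b2⟩ := H20.mem_touch.1 hs'
        refine mem_rlx_of (K := KP) g hT1 hs hS hl hFQ hmem (a3 s b1 b2) (mb_at' g b2) ?_
        rw [H69.mv_inv act]
        exact rlx_sub b1
    refine ⟨?_, fin_step pP.unit C.pq.unit hSP hSQ hS3 hnp key ?_⟩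
    · rintro g' ⟨h, hsp, hmat, hSt, hlen⟩
      have hl : lam h ≤ L := by
        rcases hlen with h | h
        · exact h.le
        · exact h.1.le
      exact uql P Q L C.hyp C.gx C.pq g' g S h
        ⟨hS3, hsp.sub, hsp.fits, hmat.fits', hSt, fun s hs => hmat.mem s (hSt hs)⟩
        ⟨hS3, hsp.sub, hsp.fits, (hLX h hsp.sub hsp.fits
          (fun s hs => (H20.mem_touch.1 (hSt hs)).2)).2 hl, hSt, hmem⟩ hl hLt
    · intro h hs hF hS hl
      have hFQ : Fits Q h := fits_of_rlx (fun F hF => (hT2 F hF).1) hs hF hS hl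
      have hFP : Fits P (mb g⁻¹ h) := (lxx Q P L hE.symm (S.image (mv g)) g⁻¹ (mb g h1) h hcg
        hS1' (fun s hs' => H20.mem_touch.2 ⟨hSQ hs', hS s hs'⟩) (hsubm g h1 hs1) hs hmat1'.1
        hFQ hl1').2 hl
      have hS' : ∀ s ∈ S, mb g⁻¹ h s.1 = s.2 := by
        have := mb_on g⁻¹ hS
        rwa [inv_image] at this
      have h5 := key (mb g⁻¹ h) (hsubm _ _ hs) (fun s hs' => hFP s (rlx_sub hs')) hS'
        ((H69.lam_mb g⁻¹ hs).le.trans hl)
      have h6 := (H69.msy act _ _ _ _ h5).1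
      rwa [mb_inv] at h6
  · -- Case B
    obtain ⟨heq, h4⟩ : lam h0 = L ∧ 4 ≤ (touch P h0).card := by
      rcases hlen0 with h | h
      · exact absurd ⟨h0, hsp0.sub, hsp0.fits, hS0, h⟩ hLt
      · exact h
    have hk0s := hsubm g h0 hsp0.sub
    have hk0l : lam (mb g h0) = L := (H69.lam_mb g hsp0.sub).trans heq
    have hS0' : S.image (mv g) ⊆ touch Q (mb g h0) := by
      rw [hmat0'.2.1]
      exact Finset.image_subset_image hS0
    have hLtQ : ¬ Lt Q (S.image (mv g)) L := by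
      rintro ⟨h', hs', hF', hS', hlt'⟩
      obtain ⟨τ, hτ0, hτ1, hM⟩ := opn_mix hmat0'.1 hk0s hs' hF'
      obtain ⟨m1, m2, -, m3⟩ := (H69.mixS Q).1 (mb g h0) h' hk0s hs' τ hτ0.le hτ1.le
      obtain ⟨m4, m5, -⟩ := m3 hmat0.fits' hF'
      have m6 : S.image (mv g) ⊆ touch Q (mix τ (mb g h0) h') :=
        (Finset.subset_inter hS0' hS').trans m5
      have m7 : ∀ s ∈ S, mb g⁻¹ (mix τ (mb g h0) h') s.1 = s.2 := by
        have := mb_on g⁻¹ (fun s hs => (H20.mem_touch.1 (m6 hs)).2)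
        rwa [inv_image] at this
      refine hLt ⟨mb g⁻¹ (mix τ (mb g h0) h'), hsubm _ _ m1, hM.fits',
        fun s hs => H20.mem_touch.2 ⟨hSP hs, m7 s hs⟩, ?_⟩
      rw [H69.lam_mb g⁻¹ m1, m2, hk0l]
      nlinarith
    have hrP : rlx P TP cP S = P := by
      refine Finset.Subset.antisymm rlx_sub fun t ht => mem_rlx.2 ⟨ht, ?_⟩
      rintro ⟨hn, hT, hc⟩
      have h5 := (hT1 _ hT).1.lt t (Finset.mem_insert_self _ _) hc
      rw [Finset.erase_insert hn] at h5
      exact hLt h5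
    have hrQ : rlx Q TQ cQ (S.image (mv g)) = Q := by
      refine Finset.Subset.antisymm rlx_sub fun t ht => mem_rlx.2 ⟨ht, ?_⟩
      rintro ⟨hn, hT, hc⟩
      have h5 := (hT2 _ hT).1.lt t (Finset.mem_insert_self _ _) hc
      rw [Finset.erase_insert hn] at h5
      exact hLtQ h5
    have hminP : ∀ h, Sublin h → Fits P h → S ⊆ touch P h → L ≤ lam h := by
      intro h hs hF hS
      by_contra hc
      exact hLt ⟨h, hs, hF, hS, not_le.1 hc⟩
    have hminQ : ∀ h, Sublin h → Fits Q h → S.image (mv g) ⊆ touch Q h → L ≤ lam h := by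
      intro h hs hF hS
      by_contra hc
      exact hLtQ ⟨h, hs, hF, hS, not_le.1 hc⟩
    have huP : ∀ h, Sublin h → Fits P h → S ⊆ touch P h → lam h ≤ L → h0 = h := by
      intro h hs hF hS hl
      refine umx P pP S hSP hS3 hnp h0 h hsp0.sub hs hsp0.fits hF hS0 hS
        (heq.trans (le_antisymm (hminP h hs hF hS) hl)) ?_
      rw [heq]
      exact hminP
    have huQ : ∀ h, Sublin h → Fits Q h → S.image (mv g) ⊆ touch Q h → lam h ≤ L →
        mb g h0 = h := by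
      intro h hs hF hS hl
      refine umx Q C.pq (S.image (mv g)) hSQ hcg (np_image g hnp) (mb g h0) h hk0s hs
        hmat0.fits' hF hS0' hS (hk0l.trans (le_antisymm (hminQ h hs hF hS) hl)) ?_
      rw [hk0l]
      exact hminQ
    refine ⟨?_, fin_step pP.unit C.pq.unit hSP hSQ hS3 hnp ?_ ?_⟩
    · rintro g' ⟨h, hsp, hmat, hSt, hlen⟩
      have hl : lam h ≤ L := by
        rcases hlen with h | h
        · exact h.le
        · exact h.1.le
      obtain rfl := huP h hsp.sub hsp.fits hSt hl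
      obtain ⟨F, hF, hF4⟩ := Finset.exists_subset_card_eq h4
      obtain ⟨t, ht, hLtF⟩ := t3x P pP h0 hsp0.sub hsp0.fits F hF hF4
      rw [heq] at hLtF
      have hc : (F.erase t).card = 3 := by
        rw [Finset.card_erase_of_mem ht, hF4]
      have hFt : F.erase t ⊆ touch P h0 := (Finset.erase_subset _ _).trans hF
      exact uql P Q L C.hyp C.gx C.pq g' g (F.erase t) h0
        ⟨hc, hsp0.sub, hsp0.fits, hmat.fits', hFt, fun s hs => hmat.mem s (hFt hs)⟩
        ⟨hc, hsp0.sub, hsp0.fits, hmat0.fits', hFt, fun s hs => hmat0.mem s (hFt hs)⟩ hl hLtF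
    · intro h hs hF hS hl
      rw [hrP, hrQ]
      rw [hrP] at hF
      obtain rfl := huP h hs hF (fun s hs' => H20.mem_touch.2 ⟨hSP hs', hS s hs'⟩) hl
      exact hmat0
    · intro h hs hF hS hl
      rw [hrP, hrQ]
      rw [hrQ] at hF
      obtain rfl := huQ h hs hF (fun s hs' => H20.mem_touch.2 ⟨hSQ hs', hS s hs'⟩) hl
      exact hmat0'.1

end Pool.Agent.XQ.H11
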